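import Mathlib
import Pool.Agent.H32.AtomL1

set_option autoImplicit false

namespace Pool.Agent.Results.MP_973dba_an.Bidual

open MeasureTheory Filter Topology Set Pool.Agent.H32.AtomL1

/-- `U_X(x,y;a)`. -/
noncomputable def U {X : Type} [NormedAddCommGroup X] (x y : X) (a : ℝ) : ℝ :=
  sSup {r : ℝ | ∃ z : X, ‖z‖ ≤ a ∧ r = |‖x + z‖ - ‖y + z‖|}

/-- `U_X(d;a)`. -/
noncomputable def Umod (X : Type) [NormedAddCommGroup X] (d a : ℝ) : ℝ :=
  sInf {r : ℝ | ∃ x y : X, ‖x‖ = 1 ∧ ‖y‖ = 1 ∧ d ≤ ‖x - y‖ ∧ r = U x y a}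

/-- Uniform property (S). -/
def UniformS (X : Type) [NormedAddCommGroup X] : Prop :=
  ∀ d a : ℝ, 0 < d → d < 2 → 0 < a → 0 < Umod X d a

/-- The bidual with its canonical norm has uniform property (S). -/
def BidualUniformS (X : Type) [NormedAddCommGroup X] [NormedSpace ℝ X] : Prop :=
  UniformS (StrongDual ℝ (StrongDual ℝ X))

/-- Lebesgue measure on `(0,1]`. -/
noncomputable def leb : Measure ℝ := volume.restrict (Ioc 0 1)

instance : IsFiniteMeasure leb := by unfold leb; infer_instance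
instance : NullSingletonClass leb := by unfold leb; infer_instance

theorem halve {h k : ℝ → ℝ} (hh : Integrable h leb) (hk : Integrable k leb) (n : ℕ) :
    ∃ A, MeasurableSet A ∧ ∫ x in A, h x ∂leb = (∫ x, h x ∂leb) / 2 ^ n ∧
      (∫ x, k x ∂leb) / 2 ^ n ≤ ∫ x in A, k x ∂leb := by
  induction n with
  | zero => exact ⟨univ, MeasurableSet.univ, by simp, by simp⟩
  | succ n ih =>
    obtain ⟨A, hA, h1, h2⟩ := ih
    have hc := intervalIntegral.continuous_primitive (μ := leb)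
      (fun a b => (hh.indicator hA).intervalIntegrable) 0
    have e : ∀ t : ℝ, 0 ≤ t → ∫ x in (0 : ℝ)..t, A.indicator h x ∂leb = ∫ x in A ∩ Ioc 0 t, h x ∂leb :=
      fun t ht => by rw [intervalIntegral.integral_of_le ht, setIntegral_indicator hA, inter_comm]
    have e1 : ∫ x in (0 : ℝ)..1, A.indicator h x ∂leb = ∫ x in A, h x ∂leb := by
      rw [intervalIntegral.integral_of_le zero_le_one, ← integral_indicator hA, leb,
        Measure.restrict_restrict measurableSet_Ioc, inter_self]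
    obtain ⟨t, ht, ht'⟩ := intermediate_value_uIcc (a := 0) (b := 1) hc.continuousOn
      (show (∫ x in A, h x ∂leb) / 2 ∈ _ by
        simp only [intervalIntegral.integral_same, e1, mem_uIcc]
        rcases le_total 0 (∫ x in A, h x ∂leb) with h0 | h0
        · left; constructor <;> linarith
        · right; constructor <;> linarith)
    rw [uIcc_of_le zero_le_one] at ht
    simp only [e t ht.1] at ht'
    have s1 := integral_inter_add_sdiff (μ := leb) (s := A) (measurableSet_Ioc (a := (0 : ℝ)) (b := t))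
      hh.integrableOn
    have s2 := integral_inter_add_sdiff (μ := leb) (s := A) (measurableSet_Ioc (a := (0 : ℝ)) (b := t))
      hk.integrableOn
    rw [pow_succ, ← div_div, ← div_div, ← h1]
    rcases le_total (∫ x in A ∩ Ioc 0 t, k x ∂leb) (∫ x in A \ Ioc 0 t, k x ∂leb) with h0 | h0
    · exact ⟨A \ Ioc 0 t, hA.diff measurableSet_Ioc, by linarith, by linarith⟩
    · exact ⟨_, hA.inter measurableSet_Ioc, ht', by linarith⟩

theorem le_U {X : Type} [NormedAddCommGroup X] (x y z : X) {a : ℝ} (hz : ‖z‖ ≤ a) :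
    |‖x + z‖ - ‖y + z‖| ≤ U x y a := by
  refine le_csSup ⟨‖x - y‖, ?_⟩ ⟨z, hz, rfl⟩
  rintro _ ⟨w, -, rfl⟩
  simpa using abs_norm_sub_norm_le (x + w) (y + w)

theorem fails {Y : Type} [NormedAddCommGroup Y] [NormedSpace ℝ Y] (φ ψ : Y) (h1 : 1 ≤ ‖φ - ψ‖)
    (h2 : ∀ a b : ℝ, 1 / 4 ≤ a → 1 / 4 ≤ b → a + b = 1 → ‖a • φ + b • ψ‖ = 1 ∧
        ∀ w, ‖w‖ ≤ 1 / 4 → ‖a • φ + b • ψ + w‖ ≤ ‖b • φ + a • ψ + w‖) : ¬ UniformS Y := by
  intro h
  obtain ⟨n1, k1⟩ := h2 (3 / 4) (1 / 4) (by norm_num) le_rfl (by norm_num)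
  obtain ⟨n2, k2⟩ := h2 (1 / 4) (3 / 4) le_rfl (by norm_num) (by norm_num)
  refine (h (1 / 2) (1 / 4) (by norm_num) (by norm_num) (by norm_num)).not_ge
    (csInf_le_of_le ⟨0, ?_⟩ ⟨_, _, n1, n2, ?_, rfl⟩ (Real.sSup_nonpos ?_))
  · rintro _ ⟨x, y, -, -, -, rfl⟩
    exact (abs_nonneg _).trans (le_U x y 0 (by norm_num))
  · rw [show (3 / 4 : ℝ) • φ + (1 / 4 : ℝ) • ψ - ((1 / 4 : ℝ) • φ + (3 / 4 : ℝ) • ψ) =
      (1 / 2 : ℝ) • (φ - ψ) by module, norm_smul]
    norm_num; linarith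
  · rintro _ ⟨z, hz, rfl⟩
    rw [le_antisymm (k1 z hz) (k2 z hz), sub_self, abs_zero]

theorem result : UniformS (Lp ℝ 1 leb) ∧ ¬ BidualUniformS (Lp ℝ 1 leb) := by
  constructor
  · intro d a hd hd2 ha
    obtain ⟨n, hn⟩ := pow_unbounded_of_one_lt (2 / a) one_lt_two
    refine lt_of_lt_of_le (by positivity : 0 < d / 2 ^ n) (le_csInf ?_ ?_)
    · have h1 : ‖(E univ MeasurableSet.univ : Lp ℝ 1 leb)‖ = 1 := by
        rw [E_norm]; simp [leb, Measure.real]
      refine ⟨_, _, -E univ MeasurableSet.univ, h1, by rwa [norm_neg], ?_, rfl⟩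
      rw [sub_neg_eq_add, ← two_smul ℝ, norm_smul, h1]; simpa using hd2.le
    rintro _ ⟨x, y, hx, hy, hxy, rfl⟩
    have ix := (L1.integrable_coeFn x).norm
    have iy := (L1.integrable_coeFn y).norm
    obtain ⟨A, hA, h1, h2⟩ := halve (ix.add iy) (L1.integrable_coeFn (x - y)).norm n
    simp only [Pi.add_apply] at h1
    rw [integral_add ix.integrableOn iy.integrableOn, integral_add ix iy, ← L1.norm_eq_integral_norm,
      ← L1.norm_eq_integral_norm, ← P_norm hA, ← P_norm hA, hx, hy] at h1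
    rw [← L1.norm_eq_integral_norm, ← P_norm hA] at h2
    have h3 : (1 + 1) / 2 ^ n ≤ a := by
      rw [div_lt_iff₀ ha] at hn
      rw [div_le_iff₀ (by positivity)]; linarith
    have key : ∀ v w : Lp ℝ 1 leb, ‖w + -P A hA v‖ = ‖P A hA (w - v)‖ + ‖w‖ - ‖P A hA w‖ := by
      intro v w
      rw [← P_add hA (w + -P A hA v), ← P_add hA w, map_add, map_add, map_neg, map_neg, P_P,
        P_dis hA.compl hA disjoint_compl_left, map_sub]
      simp only [inter_self, neg_zero, add_zero, ← sub_eq_add_neg]; ring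
    have a1 := le_U x y (-P A hA x) (a := a) (by rw [norm_neg]; linarith [norm_nonneg (P A hA y)])
    have a2 := le_U x y (-P A hA y) (a := a) (by rw [norm_neg]; linarith [norm_nonneg (P A hA x)])
    rw [key, key, sub_self, map_zero, norm_zero] at a1 a2
    have a3 : ‖P A hA (y - x)‖ = ‖P A hA (x - y)‖ := by rw [← norm_neg, ← map_neg, neg_sub]
    have a4 : d / 2 ^ n ≤ ‖x - y‖ / 2 ^ n := by gcongr
    linarith [(abs_le.mp a1).1, (abs_le.mp a2).2]
  · intro h
    obtain ⟨φ, ψ, h1, h2⟩ := two_atoms (μ := leb) (measurableSet_Iic (a := (1 / 2 : ℝ)))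
      (by
        rw [leb, Measure.restrict_apply measurableSet_Iic]
        exact fun h0 => by
          have := measure_mono_null (show Ioc (0 : ℝ) (1 / 2) ⊆ Iic (1 / 2) ∩ Ioc 0 1 from
            fun x hx => ⟨hx.2, hx.1, by linarith [hx.2]⟩) h0
          simp at this)
      (by
        rw [leb, Measure.restrict_apply measurableSet_Iic.compl]
        exact fun h0 => by
          have := measure_mono_null (show Ioc (1 / 2 : ℝ) 1 ⊆ (Iic (1 / 2))ᶜ ∩ Ioc 0 1 from
            fun x hx => ⟨not_le.mpr hx.1, by linarith [hx.1], hx.2⟩) h0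
          simp at this; norm_num at this)
    exact fails φ ψ h1 h2 h

end Pool.Agent.Results.MP_973dba_an.Bidual
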